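import Mathlib
import Pool.Agent.Y298.CA.Stm

/-!
# Project CA (helper298): passage near the critical point along a slow curve
-/

set_option autoImplicit false

open Set Filter Metric MeasureTheory

namespace Pool.Agent.Y220.CA

open Pool.Agent.TH279.MD Pool.Agent.Y298.SH Pool.Agent.Y298.SH.CD Pool.Agent.Y298.CA
open Pool.Agent.Y298.SH.CE (geom_part)

/-- The passage near the critical point along a slow curve. -/
theorem bi (hpush : S_PUSH) : S_BI := by
  intro d C₁ lam θ B Ca hd hC1 hlam hθ hPC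
  have hdR : (2 : ℝ) ≤ d := by exact_mod_cast hd
  have hB1 : 1 ≤ B := hPC.Ca1.trans hPC.CaB
  have hθ0 : 0 < θ := by linarith
  have hl0 : 0 < lam := by linarith
  have hiθ : 0 < 1 / θ := by positivity
  have hiθ1 : 1 / θ < 1 := by rw [div_lt_one hθ0]; exact hθ
  have hil : 0 < 1 / lam := by positivity
  have hil1 : 1 / lam < 1 := by rw [div_lt_one hl0]; exact hlam
  obtain ⟨Sθ, hSθ⟩ : ∃ Sθ : ℝ, Sθ = 1 / (1 - 1 / θ) := ⟨_, rfl⟩
  obtain ⟨Sl, hSl⟩ : ∃ Sl : ℝ, Sl = 1 / (1 - 1 / lam) := ⟨_, rfl⟩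
  have hSθ0 : 0 < Sθ := by
    have : 0 < 1 - 1 / θ := by linarith
    rw [hSθ]
    positivity
  have hSl0 : 0 < Sl := by
    have : 0 < 1 - 1 / lam := by linarith
    rw [hSl]
    positivity
  obtain ⟨K, hK⟩ : ∃ K : ℝ, K = 12 * d ^ 2 * θ * Sθ + 2 * C₁ * Sl := ⟨_, rfl⟩
  have hK0 : 0 < K := by rw [hK]; positivity
  obtain ⟨ε, hε⟩ : ∃ ε : ℝ, ε = min (1 / (8 * K)) (1 / (8 * d ^ 2)) := ⟨_, rfl⟩
  have hε0 : 0 < ε := by rw [hε]; exact lt_min (by positivity) (by positivity)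
  have hε1 : ε * K ≤ 1 / 8 := by
    have h1 : ε ≤ 1 / (8 * K) := by rw [hε]; exact min_le_left _ _
    calc ε * K ≤ 1 / (8 * K) * K := mul_le_mul_of_nonneg_right h1 hK0.le
      _ = 1 / 8 := by field_simp
  have hε2 : ε * (8 * d ^ 2) ≤ 1 := by
    have h1 : ε ≤ 1 / (8 * d ^ 2) := by rw [hε]; exact min_le_right _ _
    calc ε * (8 * d ^ 2) ≤ 1 / (8 * d ^ 2) * (8 * d ^ 2) := 
          mul_le_mul_of_nonneg_right h1 (by positivity)
      _ = 1 := by field_simp
  have hd2 : (1 : ℝ) ≤ 8 * (d : ℝ) ^ 2 := by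
    have h1 : (1 : ℝ) ≤ (d : ℝ) ^ 2 := one_le_pow₀ (by linarith)
    linarith
  refine ⟨ε, hε0, (le_mul_of_one_le_right hε0.le hd2).trans hε2, ?_⟩
  intro c₁ hc s ρ κ k n γ w hs hs1 hρ hk hγ hslow hc1 hx hw0 hD0 hstart hDρ hκ
  obtain ⟨c, hcd⟩ : ∃ c : ℂ, c = γ w := ⟨_, rfl⟩
  obtain ⟨x, hxd⟩ : ∃ x : ℝ, x = ‖GG d γ n w‖ := ⟨_, rfl⟩
  obtain ⟨D, hDd⟩ : ∃ D : ℝ, D = ‖DD d γ n w‖ := ⟨_, rfl⟩
  rw [← hxd, ← hDd] at hDρ hκ
  rw [← hxd] at hx
  rw [← hxd, ← hDd]
  have hx0 : 0 < x := by rw [hxd]; exact norm_pos_iff.2 hw0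
  have hD00 : 0 < D := by rw [hDd]; exact norm_pos_iff.2 hD0
  -- the point v
  obtain ⟨v, hvd⟩ : ∃ v : ℂ, v = (f d c)^[n + 1] w := ⟨_, rfl⟩
  have hv : v ∈ ball c s := by
    rw [mem_ball, dist_eq_norm, hvd, Function.iterate_succ_apply']
    have h1 : f d c ((f d c)^[n] w) - c = (GG d γ n w) ^ d := by
      unfold GG
      rw [← hcd]
      show ((f d c)^[n] w) ^ d + c - c = _
      ring
    rw [h1, norm_pow, ← hxd]
    exact hx
  have hpass := fun j (hj : j ≤ k) => hPC.pass c₁ hc c s k hs (by rw [hcd]; exact hc1) hk v hv j hj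
  have hGv : ∀ i, GG d γ (n + 1 + i) w = (f d c)^[i] v := by
    intro i
    unfold GG
    rw [← hcd, hvd, add_comm (n + 1) i, Function.iterate_add_apply]
  have hDv : ∀ i, ‖DD d γ (n + 1 + i) w‖ = ‖deriv ((f d c)^[i]) v‖ * (d * x ^ (d - 1) * D) := by
    intro i
    unfold DD
    rw [← hcd, add_comm (n + 1) i, deriv_iter_add, norm_mul, ← hvd]
    congr 1
    rw [add_comm n 1, deriv_iter_add, Function.iterate_one, deriv_f, norm_mul, norm_mul, norm_pow,
      Complex.norm_natCast, hDd, hxd]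
    unfold GG DD
    rw [← hcd]
  have hP := hc.Pd_pos
  have hxx : x ^ (d - 1) * x = x ^ d := by
    rw [← pow_succ]
    congr 1
    omega
  have hxp : 0 < x ^ (d - 1) := by positivity
  -- upper bound for the derivatives
  have hup : ∀ i ≤ k, ‖DD d γ (n + 1 + i) w‖ * ρ ≤ 2 * d * ε * (s * Pd d c₁ i) := by
    intro i hi
    obtain ⟨-, -, h1, -⟩ := hpass i hi
    have hPi := hP i
    rw [hDv]
    calc ‖deriv ((f d c)^[i]) v‖ * (d * x ^ (d - 1) * D) * ρ
        ≤ (2 * Pd d c₁ i) * (d * x ^ (d - 1) * D) * ρ := by gcongr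
      _ = 2 * Pd d c₁ i * (d * x ^ (d - 1)) * (D * ρ) := by ring
      _ ≤ 2 * Pd d c₁ i * (d * x ^ (d - 1)) * (ε * x) := by gcongr
      _ = 2 * d * ε * (x ^ (d - 1) * x * Pd d c₁ i) := by ring
      _ = 2 * d * ε * (x ^ d * Pd d c₁ i) := by rw [hxx]
      _ ≤ 2 * d * ε * (s * Pd d c₁ i) := by gcongr
  have hlow : ∀ i ≤ k, Pd d c₁ i * (x ^ (d - 1) * D) ≤ ‖DD d γ (n + 1 + i) w‖ := by
    intro i hi
    obtain ⟨-, h1, -, -⟩ := hpass i hi
    have hPi := hP i
    rw [hDv]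
    calc Pd d c₁ i * (x ^ (d - 1) * D) = Pd d c₁ i / 2 * (2 * x ^ (d - 1) * D) := by ring
      _ ≤ ‖deriv ((f d c)^[i]) v‖ * (d * x ^ (d - 1) * D) := by gcongr
  have hB0 : ∀ j, 1 ≤ B * θ ^ j := fun j => by
    exact one_le_mul_of_one_le_of_one_le hB1 (one_le_pow₀ hθ.le)
  refine ⟨?_, ?_, ?_⟩
  · refine hpush d γ w ρ κ n (n + 1 + k) (fun j => 3 * d * θ * ε * (1 / θ) ^ (j - n))
      (fun j => 2 * C₁ * ε * (1 / lam) ^ (j - n)) hd hρ hγ hslow (by omega) hstart
      (fun j => by positivity) (fun j => by positivity) ?_ ?_ ?_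
    · intro j hj1 hj2
      obtain ⟨i, rfl⟩ : ∃ i, j = n + i := ⟨j - n, by omega⟩
      show ‖DD d γ (n + i) w‖ * ρ ≤ 3 * d * θ * ε * (1 / θ) ^ (n + i - n) * ‖GG d γ (n + i) w‖
      rw [Nat.add_sub_cancel_left]
      rcases Nat.eq_zero_or_pos i with rfl | hi
      · rw [add_zero, pow_zero, mul_one, ← hDd, ← hxd]
        refine hDρ.trans ?_
        have h1 : 1 ≤ 3 * d * θ := by
          have h2 : 1 ≤ (d : ℝ) * θ := one_le_mul_of_one_le_of_one_le (by linarith) hθ.le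
          linarith
        calc ε * x = 1 * (ε * x) := by ring
          _ ≤ 3 * d * θ * (ε * x) := mul_le_mul_of_nonneg_right h1 (by positivity)
          _ = _ := by ring
      · obtain ⟨l, rfl⟩ : ∃ l, i = l + 1 := ⟨i - 1, by omega⟩
        have hl : l < k := by omega
        have e1 : n + (l + 1) = n + 1 + l := by ring
        rw [e1, hGv]
        refine (hup l hl.le).trans ?_
        obtain ⟨-, -, -, h1⟩ := hpass l hl.le
        have h2 := h1 hl
        have h3 : 3 / 4 * ‖zz d c₁ l‖ ≤ ‖(f d c)^[l] v‖ := by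
          have h4 : ‖zz d c₁ l‖ ≤ ‖(f d c)^[l] v‖ + ‖(f d c)^[l] v - zz d c₁ l‖ := by
            calc ‖zz d c₁ l‖ = ‖(f d c)^[l] v - ((f d c)^[l] v - zz d c₁ l)‖ := by congr 1; ring
              _ ≤ _ := norm_sub_le _ _
          linarith
        have h4 := hk l hl
        have hPl := hP l
        have h5 : θ ^ l * (s * Pd d c₁ l) ≤ 4 / 3 * ‖(f d c)^[l] v‖ := by
          calc θ ^ l * (s * Pd d c₁ l) ≤ B * (θ ^ l * (s * Pd d c₁ l)) :=
                le_mul_of_one_le_left (by positivity) hB1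
            _ = B * θ ^ l * s * Pd d c₁ l := by ring
            _ ≤ ‖zz d c₁ l‖ := h4
            _ ≤ _ := by linarith
        have h6 : s * Pd d c₁ l ≤ 4 / 3 * ((1 / θ) ^ l * ‖(f d c)^[l] v‖) := by
          have h7 : (1 / θ) ^ l * θ ^ l = 1 := by
            rw [← mul_pow, one_div, inv_mul_cancel₀ hθ0.ne', one_pow]
          calc s * Pd d c₁ l = (1 / θ) ^ l * θ ^ l * (s * Pd d c₁ l) := by rw [h7, one_mul]
            _ = (1 / θ) ^ l * (θ ^ l * (s * Pd d c₁ l)) := by ring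
            _ ≤ (1 / θ) ^ l * (4 / 3 * ‖(f d c)^[l] v‖) := by gcongr
            _ = _ := by ring
        have h8 : θ * (1 / θ) ^ (l + 1) = (1 / θ) ^ l := by
          rw [pow_succ]
          field_simp
        have h9 : 0 ≤ (1 / θ) ^ l * ‖(f d c)^[l] v‖ := by positivity
        calc 2 * d * ε * (s * Pd d c₁ l) ≤ 2 * d * ε * (4 / 3 * ((1 / θ) ^ l * ‖(f d c)^[l] v‖)) := by
              gcongr
          _ = (8 / 3 * (d * ε)) * ((1 / θ) ^ l * ‖(f d c)^[l] v‖) := by ring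
          _ ≤ (3 * (d * ε)) * ((1 / θ) ^ l * ‖(f d c)^[l] v‖) := by
              apply mul_le_mul_of_nonneg_right _ h9
              have h10 : 0 < (d : ℝ) * ε := by positivity
              linarith
          _ = (3 * (d * ε)) * (θ * (1 / θ) ^ (l + 1) * ‖(f d c)^[l] v‖) := by rw [h8]
          _ = 3 * d * θ * ε * (1 / θ) ^ (l + 1) * ‖(f d c)^[l] v‖ := by ring
    · intro j hj1 hj2
      obtain ⟨i, rfl⟩ : ∃ i, j = n + i := ⟨j - n, by omega⟩
      show κ ≤ 2 * C₁ * ε * (1 / lam) ^ (n + i - n) * ‖DD d γ (n + i + 1) w‖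
      have e1 : n + i + 1 = n + 1 + i := by ring
      rw [Nat.add_sub_cancel_left, e1]
      refine hκ.trans ?_
      have h1 := hlow i (by omega)
      have h2 := hc.exp i
      have hPi := hP i
      have h3 : 1 ≤ C₁ * (1 / lam) ^ i * Pd d c₁ i := by
        have h7 : (1 / lam) ^ i * lam ^ i = 1 := by
          rw [← mul_pow, one_div, inv_mul_cancel₀ hl0.ne', one_pow]
        calc 1 = (1 / lam) ^ i * lam ^ i := h7.symm
          _ ≤ (1 / lam) ^ i * (C₁ * Pd d c₁ i) := by gcongr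
          _ = _ := by ring
      have h4 : 0 ≤ ε * (x ^ (d - 1) * D) := by positivity
      calc ε * (x ^ (d - 1) * D) ≤ (C₁ * (1 / lam) ^ i * Pd d c₁ i) * (ε * (x ^ (d - 1) * D)) :=
            le_mul_of_one_le_left h4 h3
        _ = C₁ * ε * (1 / lam) ^ i * (Pd d c₁ i * (x ^ (d - 1) * D)) := by ring
        _ ≤ C₁ * ε * (1 / lam) ^ i * ‖DD d γ (n + 1 + i) w‖ := by gcongr
        _ ≤ 2 * (C₁ * ε * (1 / lam) ^ i * ‖DD d γ (n + 1 + i) w‖) := by
            have : 0 ≤ C₁ * ε * (1 / lam) ^ i * ‖DD d γ (n + 1 + i) w‖ := by positivity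
            linarith
        _ = _ := by ring
    · have e1 : ∑ j ∈ Finset.Ico n (n + 1 + k), (4 * d * (3 * d * θ * ε * (1 / θ) ^ (j - n)) +
          2 * C₁ * ε * (1 / lam) ^ (j - n)) = ∑ i ∈ Finset.range (k + 1),
          (4 * d * (3 * d * θ * ε * (1 / θ) ^ i) + 2 * C₁ * ε * (1 / lam) ^ i) := by
        rw [Finset.sum_Ico_eq_sum_range, show n + 1 + k - n = k + 1 by omega]
        refine Finset.sum_congr rfl fun i _ => ?_
        rw [Nat.add_sub_cancel_left]
      refine le_trans (le_of_eq e1) ?_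
      have h1 := geom_part hiθ hiθ1 (k + 1)
      have h2 := geom_part hil hil1 (k + 1)
      rw [← hSθ] at h1
      rw [← hSl] at h2
      have e2 : ∑ i ∈ Finset.range (k + 1),
          (4 * d * (3 * d * θ * ε * (1 / θ) ^ i) + 2 * C₁ * ε * (1 / lam) ^ i) =
          ε * (12 * d ^ 2 * θ * ∑ i ∈ Finset.range (k + 1), (1 / θ) ^ i +
            2 * C₁ * ∑ i ∈ Finset.range (k + 1), (1 / lam) ^ i) := by
        rw [Finset.sum_add_distrib, mul_add, Finset.mul_sum, Finset.mul_sum, Finset.mul_sum,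
          Finset.mul_sum]
        congr 1
        · refine Finset.sum_congr rfl fun i _ => by ring
        · refine Finset.sum_congr rfl fun i _ => by ring
      rw [e2]
      refine le_trans ?_ hε1
      rw [hK]
      gcongr
  · refine le_trans (le_of_eq ?_) (hlow k le_rfl)
    ring
  · refine (hup k le_rfl).trans ?_
    have h1 : s * Pd d c₁ k ≤ 4 * d := by
      rcases Nat.eq_zero_or_pos k with rfl | hk0
      · rw [Pd_zero]
        linarith
      · obtain ⟨j, rfl⟩ : ∃ j, k = j + 1 := ⟨k - 1, by omega⟩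
        have h2 := hk j (by omega)
        have hPj := hP j
        have h3 : s * Pd d c₁ j ≤ ‖zz d c₁ j‖ := by
          calc s * Pd d c₁ j ≤ B * θ ^ j * (s * Pd d c₁ j) :=
                le_mul_of_one_le_left (by positivity) (hB0 j)
            _ = B * θ ^ j * s * Pd d c₁ j := by ring
            _ ≤ _ := h2
        have h4 : ‖zz d c₁ j‖ ^ d ≤ 4 := by
          have h5 : zz d c₁ j ^ d = zz d c₁ (j + 1) - zz d c₁ 0 := by
            rw [zz_succ, zz_zero]
            ring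
          rw [← norm_pow, h5]
          refine (norm_sub_le _ _).trans ?_
          linarith [hc.bd (j + 1), hc.bd 0]
        have h5 : ‖zz d c₁ j‖ ^ (d - 1) * ‖zz d c₁ j‖ = ‖zz d c₁ j‖ ^ d := by
          rw [← pow_succ]
          congr 1
          omega
        rw [Pd_succ]
        calc s * (d * ‖zz d c₁ j‖ ^ (d - 1) * Pd d c₁ j)
            = d * ‖zz d c₁ j‖ ^ (d - 1) * (s * Pd d c₁ j) := by ring
          _ ≤ d * ‖zz d c₁ j‖ ^ (d - 1) * ‖zz d c₁ j‖ := by gcongr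
          _ = d * (‖zz d c₁ j‖ ^ (d - 1) * ‖zz d c₁ j‖) := by ring
          _ = d * ‖zz d c₁ j‖ ^ d := by rw [h5]
          _ ≤ d * 4 := by gcongr
          _ = _ := by ring
    calc 2 * d * ε * (s * Pd d c₁ k) ≤ 2 * d * ε * (4 * d) := by gcongr
      _ = ε * (8 * d ^ 2) := by ring
      _ ≤ 1 := hε2
      _ ≤ 5 := by norm_num

end Pool.Agent.Y220.CA
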